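import Pool.Agent.H22.U.SEQ
import Pool.Agent.H89.U4.Stmts

/-!
# Project U4: module SEQE

The group `ZMod (2 τ n)`, one mode for each pair of opposite cosets of `2 τ ZMod n`.
-/

namespace Pool.Agent.H22.U4

set_option linter.unusedSectionVars false

open Pool.Agent.H89.MOD (FamEx)
open Pool.Agent.H26.U Pool.Agent.H15.U Pool.Agent.H89.U3 Pool.Agent.H89.U4 Pool.Agent.H22.U
  Matrix Pool.Agent.H54.Etf

section grp

variable (s n : ℕ) [NeZero n]

/-- multiplication by `2 τ` -/
def ph (y : ZMod n) : ZMod (2 * (s + 1) * n) := ((2 * (s + 1) * y.val : ℕ) : ZMod _)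

/-- reduction modulo `2 τ` -/
def ps : ZMod (2 * (s + 1) * n) →+* ZMod (2 * (s + 1)) :=
  ZMod.castHom (Dvd.intro n rfl) (ZMod (2 * (s + 1)))

/-- the representative of the coset of the mode `j` -/
def rp (j : Fin (s + 2)) : ZMod (2 * (s + 1) * n) := (cs s j : ℕ)

theorem ps_rp (j : Fin (s + 2)) : ps s n (rp s n j) = kc s j := by
  rw [rp, map_natCast, kc]

theorem ps_ph (y : ZMod n) : ps s n (ph s n y) = 0 := by
  rw [ph, map_natCast, ZMod.natCast_eq_zero_iff]
  exact Dvd.intro _ rfl

theorem ph_natCast (k : ℕ) : ph s n (k : ZMod n) = ((2 * (s + 1) * k : ℕ) : ZMod _) := by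
  rw [ph, ZMod.natCast_eq_natCast_iff, ZMod.val_natCast]
  exact (Nat.mod_modEq k n).mul_left' (2 * (s + 1))

theorem ph_add (y z : ZMod n) : ph s n (y + z) = ph s n y + ph s n z := by
  have hy : ((y.val : ℕ) : ZMod n) = y := ZMod.natCast_zmod_val y
  have hz : ((z.val : ℕ) : ZMod n) = z := ZMod.natCast_zmod_val z
  calc ph s n (y + z) = ph s n ((y.val + z.val : ℕ) : ZMod n) := by
        rw [Nat.cast_add, hy, hz]
    _ = ph s n y + ph s n z := by
        rw [ph_natCast, ph, ph, ← Nat.cast_add]
        congr 1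
        ring

theorem ph_zero : ph s n 0 = 0 := by
  have h := ph_add s n 0 0
  rw [add_zero] at h
  exact (add_eq_left.mp h.symm)

theorem ph_neg (y : ZMod n) : ph s n (-y) = -ph s n y := by
  rw [eq_neg_iff_add_eq_zero, ← ph_add, neg_add_cancel, ph_zero]

theorem ph_sub (y z : ZMod n) : ph s n (y - z) = ph s n y - ph s n z := by
  rw [sub_eq_add_neg, ph_add, ph_neg, sub_eq_add_neg]

theorem ph_inj (y z : ZMod n) (h : ph s n y = ph s n z) : y = z := by
  rw [ph, ph, ZMod.natCast_eq_natCast_iff] at h
  have h2 : y.val ≡ z.val [MOD n] := Nat.ModEq.mul_left_cancel' (by positivity) h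
  rw [← ZMod.natCast_zmod_val y, ← ZMod.natCast_zmod_val z, ZMod.natCast_eq_natCast_iff]
  exact h2

theorem ph_surj (h : ZMod (2 * (s + 1) * n)) (h0 : ps s n h = 0) : ∃ y, h = ph s n y := by
  have h1 : ((h.val : ℕ) : ZMod (2 * (s + 1))) = 0 := by
    rw [← map_natCast (ps s n), ZMod.natCast_zmod_val]
    exact h0
  rw [ZMod.natCast_eq_zero_iff] at h1
  obtain ⟨q, hq⟩ := h1
  refine ⟨(q : ZMod n), ?_⟩
  rw [ph_natCast, ← hq, ZMod.natCast_zmod_val]

theorem coset (j : Fin (s + 2)) (h : ZMod (2 * (s + 1) * n)) (h0 : ps s n h = kc s j) :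
    ∃ y, h = rp s n j + ph s n y := by
  obtain ⟨y, hy⟩ := ph_surj s n (h - rp s n j) (by rw [map_sub, ps_rp, h0, sub_self])
  exact ⟨y, by rw [← hy]; ring⟩

end grp

/-- the modes as functions on `ZMod (2 τ n)` -/
def fe {n : ℕ} [NeZero n] (s : ℕ) (g : Fin (s + 2) → ZMod n → ℂ) (j : Fin (s + 2))
    (h : ZMod (2 * (s + 1) * n)) : ℂ := ∑ y, if h = rp s n j + ph s n y then g j y else 0

theorem fe_on {n : ℕ} [NeZero n] (s : ℕ) (g : Fin (s + 2) → ZMod n → ℂ) (j : Fin (s + 2))
    (y : ZMod n) : fe s g j (rp s n j + ph s n y) = g j y := by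
  rw [fe, Finset.sum_eq_single y]
  · rw [if_pos rfl]
  · intro z _ hz
    rw [if_neg]
    intro h
    exact hz (ph_inj s n _ _ (add_left_cancel h)).symm
  · intro h
    exact absurd (Finset.mem_univ _) h

theorem fe_off {n : ℕ} [NeZero n] (s : ℕ) (g : Fin (s + 2) → ZMod n → ℂ) (j : Fin (s + 2))
    (h : ZMod (2 * (s + 1) * n)) (h0 : ps s n h ≠ kc s j) : fe s g j h = 0 := by
  rw [fe]
  refine Finset.sum_eq_zero fun y _ => ?_
  rw [if_neg]
  intro h1
  apply h0
  rw [h1, map_add, ps_rp, ps_ph, add_zero]

theorem acf_fe {n : ℕ} [NeZero n] (s : ℕ) (g : Fin (s + 2) → ZMod n → ℂ) (j : Fin (s + 2))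
    (x : ZMod (2 * (s + 1) * n)) :
    acf (fe s g j) x = ∑ y, g j y * star (fe s g j (rp s n j + ph s n y - x)) := by
  rw [acf]
  refine (Fintype.sum_of_injective (fun y => rp s n j + ph s n y) ?_ _ _ ?_ ?_).symm
  · intro y z h
    exact ph_inj s n _ _ (add_left_cancel h)
  · intro h hh
    rw [fe_off s g j h, zero_mul]
    intro h0
    obtain ⟨y, hy⟩ := coset s n j h h0
    exact hh ⟨y, hy.symm⟩
  · intro y
    simp only [fe_on]

theorem acf_fe_on {n : ℕ} [NeZero n] (s : ℕ) (g : Fin (s + 2) → ZMod n → ℂ) (j : Fin (s + 2))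
    (z : ZMod n) : acf (fe s g j) (ph s n z) = acf (g j) z := by
  rw [acf_fe, acf]
  refine Finset.sum_congr rfl fun y _ => ?_
  rw [add_sub_assoc, ← ph_sub, fe_on]

theorem acf_fe_off {n : ℕ} [NeZero n] (s : ℕ) (g : Fin (s + 2) → ZMod n → ℂ) (j : Fin (s + 2))
    (x : ZMod (2 * (s + 1) * n)) (hx : ps s n x ≠ 0) : acf (fe s g j) x = 0 := by
  rw [acf_fe]
  refine Finset.sum_eq_zero fun y _ => ?_
  rw [fe_off, star_zero, mul_zero]
  intro h
  rw [map_sub, map_add, ps_rp, ps_ph, add_zero] at h
  exact hx (sub_eq_self.mp h)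

theorem fe_cont {n : ℕ} [NeZero n] (s : ℕ) (U R : ZMod n → ℂ) {T : Type} [TopologicalSpace T]
    (v : T → Fin s → ZMod n → ℂ) (hv : Continuous v) :
    Continuous (fun t => fe s (gm s U R (v t))) := by
  refine continuous_pi fun i => continuous_pi fun h => ?_
  simp only [fe]
  refine continuous_finsetSum _ fun y _ => ?_
  by_cases hh : h = rp s n i + ph s n y
  · simp only [if_pos hh]
    clear hh
    refine Fin.cases ?_ (fun i => ?_) i
    · exact continuous_const
    · refine Fin.cases ?_ (fun i => ?_) i
      · exact continuous_const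
      · exact (continuous_apply y).comp ((continuous_apply i).comp hv)
  · simp only [if_neg hh]
    exact continuous_const

theorem SEQE (hC : S_CAR) (hT : S_TRI) : S_SEQE := by
  intro τ n _ hτ hn hn6 U R d v hU hR hvc hvi hv hsum
  obtain ⟨s, rfl⟩ : ∃ s, τ = s + 1 := ⟨τ - 1, by omega⟩
  change (Fin d → ℝ) → Fin s → ZMod n → ℂ at v
  obtain ⟨ι, i1, i2, ⟨F⟩, hc⟩ := hC (s + 2)
  have hcard : Fintype.card ι * Fintype.card (ZMod (2 * (s + 1) * n)) =
      8 ^ (s + 1 + 1) * (2 * (s + 1) * n) := by
    rw [hc, ZMod.card]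
  have hc3 : 3 ≤ Fintype.card ι := by
    rw [hc]
    have : 8 ^ 1 ≤ 8 ^ (s + 2) := Nat.pow_le_pow_right (by norm_num) (by omega)
    omega
  rw [← hcard]
  obtain ⟨m, hm⟩ := hn
  have hm2 : n / 2 = m := by omega
  have hmid : ((n / 2 : ℕ) : ZMod n) ≠ 0 := by
    rw [hm2, Ne, ZMod.natCast_eq_zero_iff]
    intro h
    have := Nat.le_of_dvd (by omega) h
    omega
  have ht1 : ph s n ((n / 2 : ℕ) : ZMod n) ≠ 0 := by
    intro h
    rw [← ph_zero s n] at h
    exact hmid (ph_inj s n _ _ h)
  have ht2 : ph s n ((n / 2 : ℕ) : ZMod n) + ph s n ((n / 2 : ℕ) : ZMod n) = 0 := by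
    rw [← ph_add, ← Nat.cast_add, hm2, ← hm, ZMod.natCast_self, ph_zero]
  have k0 : kc s 0 = 0 := by rw [kc, cs_zero, Nat.cast_zero]
  have r0 : rp s n 0 = 0 := by rw [rp, cs_zero, Nat.cast_zero]
  have r1 : ∀ y, -(rp s n (Fin.succ 0) + ph s n y) = rp s n (Fin.succ 0) + ph s n (-1 - y) := by
    intro y
    rw [ph_sub, ph_neg]
    have e : ph s n 1 = rp s n (Fin.succ 0) + rp s n (Fin.succ 0) := by
      have := ph_natCast s n 1
      rw [Nat.cast_one] at this
      rw [this, rp, cs_one, ← Nat.cast_add]
      congr 1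
      ring
    rw [e]
    ring
  refine hT (s + 2) ι F hc3 (ZMod (2 * (s + 1) * n)) (ph s n ((n / 2 : ℕ) : ZMod n)) ht1 ht2 d
    (fun r => fe s (gm s U R (v r))) (fe_cont s U R v hvc) ?_ ?_ ?_ ?_
  · intro r r' h
    apply hvi
    funext j y
    have h2 := congrFun (congrFun h j.succ.succ) (rp s n j.succ.succ + ph s n y)
    simp only [fe_on] at h2
    exact h2
  · intro r j
    refine Fin.cases ?_ (fun j => ?_) j
    · constructor
      · have := fe_on s (gm s U R (v r)) 0 0
        rw [r0, ph_zero, add_zero] at this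
        rw [this]
        exact hU.zero
      · have := fe_on s (gm s U R (v r)) 0 ((n / 2 : ℕ) : ZMod n)
        rw [r0, zero_add] at this
        rw [this]
        exact hU.mid
    · have hk : (0 : ZMod (2 * (s + 1))) ≠ kc s j.succ := by
        rw [← k0]
        intro h
        exact (Fin.succ_ne_zero j) (kc_inj s _ _ h).symm
      constructor
      · exact fe_off s _ _ _ (by rw [map_zero]; exact hk)
      · exact fe_off s _ _ _ (by rw [ps_ph]; exact hk)
  · intro h h0 ht
    obtain ⟨j, hj⟩ := kc_surj s (ps s n h)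
    refine ⟨j, ?_, ?_⟩
    · revert hj
      refine Fin.cases ?_ (fun j => ?_) j
      · intro hj
        have hd : ps s n h = 0 := by
          rw [k0, neg_eq_zero, or_self] at hj
          exact hj
        obtain ⟨y, rfl⟩ := ph_surj s n h hd
        have hy : y ≠ 0 := by
          rintro rfl
          exact h0 (ph_zero s n)
        have hy2 : y ≠ ((n / 2 : ℕ) : ZMod n) := by
          rintro rfl
          exact ht rfl
        have e1 : ∀ r z, fe s (gm s U R (v r)) 0 (ph s n z) = U z := by
          intro r z
          have := fe_on s (gm s U R (v r)) 0 z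
          rw [r0, zero_add] at this
          exact this
        simp only [← ph_neg, e1]
        rcases hU.half y hy hy2 with h | h
        · exact Or.inl fun _ => h
        · exact Or.inr fun _ => h
      · refine Fin.cases ?_ (fun j => ?_) j
        · intro hj
          have hd : ps s n h = kc s (Fin.succ 0) := by
            rcases hj with hj | hj
            · exact hj
            · have h2 : kc s (Fin.succ 0) + kc s (Fin.succ 0) = 0 := by
                rw [kc, cs_one, ← Nat.cast_add, ZMod.natCast_eq_zero_iff]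
                exact ⟨1, by ring⟩
              rw [neg_eq_iff_add_eq_zero, ← h2] at hj
              exact add_right_cancel hj
          obtain ⟨y, rfl⟩ := coset s n (Fin.succ 0) h hd
          simp only [r1, fe_on]
          rcases hR.half y with h | h
          · exact Or.inl fun _ => h
          · exact Or.inr fun _ => h
        · intro hj
          have hne : -kc s j.succ.succ ≠ kc s j.succ.succ := by
            intro h2
            have h3 := kc_neg s j.succ.succ j.succ.succ h2.symm
            rw [cs_succ] at h3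
            have := j.isLt
            omega
          rcases hj with hj | hj
          · left
            intro r
            constructor
            · obtain ⟨y, rfl⟩ := coset s n _ h hj
              rw [fe_on]
              exact hv r j y
            · refine fe_off s _ _ _ ?_
              rw [map_neg, hj]
              exact hne
          · right
            intro r
            constructor
            · refine fe_off s _ _ _ ?_
              intro h2
              rw [h2] at hj
              exact hne hj
            · obtain ⟨y, hy⟩ := coset s n j.succ.succ (-h) (by rw [map_neg]; exact hj)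
              rw [hy, fe_on]
              exact hv r j y
    · intro i hij r
      rcases hj with hj | hj
      · constructor
        · refine fe_off s _ _ _ ?_
          intro h
          exact hij (kc_inj s i j (by rw [← h, hj]))
        · refine fe_off s _ _ _ ?_
          intro h
          rw [map_neg] at h
          exact hij (kc_neg s i j (by rw [← h, hj])).1
      · constructor
        · refine fe_off s _ _ _ ?_
          intro h
          exact hij (kc_neg s i j (by rw [← h, ← hj, neg_neg])).1
        · refine fe_off s _ _ _ ?_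
          intro h
          rw [map_neg] at h
          exact hij (kc_inj s i j (by rw [← h, hj]))
  · intro r x hx
    by_cases hd : ps s n x = 0
    · obtain ⟨z, rfl⟩ := ph_surj s n x hd
      have hz : z ≠ 0 := by
        rintro rfl
        exact hx (ph_zero s n)
      simp only [acf_fe_on]
      rw [Fin.sum_univ_succ, Fin.sum_univ_succ, ← add_assoc]
      exact hsum r z hz
    · exact Finset.sum_eq_zero fun j _ => acf_fe_off s _ j x hd

end Pool.Agent.H22.U4
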